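import Pool.Agent.W307.QF.Stm

/-!
# QF-AVB: the moments over the primes of short intervals
-/

set_option autoImplicit false

namespace Pool.Agent.W856.QF

open Finset Polynomial Pool.Agent.W262.RK Pool.Agent.W307.RT Pool.Agent.W307.RS
open Pool.Agent.W307.QF

/-! ### zeros modulo a prime -/

lemma dvd_eval_congr (P : ℤ[X]) (m a b : ℤ) (h : m ∣ a - b) : m ∣ P.eval a ↔ m ∣ P.eval b := by
  have h1 : m ∣ P.eval a - P.eval b := h.trans (sub_dvd_eval_sub a b P)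
  constructor
  · intro h2
    have := dvd_sub h2 h1
    simpa using this
  · intro h2
    have := dvd_add h1 h2
    simpa using this

lemma nz_shift (P : ℤ[X]) (N : ℤ) (p : ℕ) (hp : 0 < p) : nz (P.comp (X + C N)) p = nz P p := by
  have hp' : (0 : ℤ) < p := by exact_mod_cast hp
  unfold nz
  refine card_nbij' (fun x : ℕ => (((x : ℤ) + N) % p).toNat) (fun x : ℕ => (((x : ℤ) - N) % p).toNat)
    ?_ ?_ ?_ ?_
  · intro x hx
    rw [mem_coe, mem_filter, mem_range] at hx ⊢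
    have h0 := Int.emod_nonneg ((x : ℤ) + N) hp'.ne'
    have h1 := Int.emod_lt_of_pos ((x : ℤ) + N) hp'
    beta_reduce
    refine ⟨by omega, ?_⟩
    rw [Int.toNat_of_nonneg h0]
    have h2 := hx.2
    rw [eval_comp, eval_add, eval_X, eval_C] at h2
    refine (dvd_eval_congr P p _ _ ?_).1 h2
    exact Int.dvd_self_sub_emod
  · intro x hx
    rw [mem_coe, mem_filter, mem_range] at hx ⊢
    have h0 := Int.emod_nonneg ((x : ℤ) - N) hp'.ne'
    have h1 := Int.emod_lt_of_pos ((x : ℤ) - N) hp'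
    beta_reduce
    refine ⟨by omega, ?_⟩
    rw [Int.toNat_of_nonneg h0, eval_comp, eval_add, eval_X, eval_C]
    refine (dvd_eval_congr P p _ _ ?_).1 hx.2
    have : (x : ℤ) - ((((x : ℤ) - N) % p) + N) = ((x : ℤ) - N) - (((x : ℤ) - N) % p) := by ring
    rw [this]
    exact Int.dvd_self_sub_emod
  · intro x hx
    rw [mem_coe, mem_filter, mem_range] at hx
    have h0 := Int.emod_nonneg ((x : ℤ) + N) hp'.ne'
    simp only
    rw [Int.toNat_of_nonneg h0, Int.emod_sub_emod]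
    have : (x : ℤ) + N - N = x := by ring
    rw [this, Int.emod_eq_of_lt (by positivity) (by exact_mod_cast hx.1)]
    simp
  · intro x hx
    rw [mem_coe, mem_filter, mem_range] at hx
    have h0 := Int.emod_nonneg ((x : ℤ) - N) hp'.ne'
    simp only
    rw [Int.toNat_of_nonneg h0, Int.emod_add_emod]
    have : (x : ℤ) - N + N = x := by ring
    rw [this, Int.emod_eq_of_lt (by positivity) (by exact_mod_cast hx.1)]
    simp

lemma nz_lin (N : ℤ) (p : ℕ) (hp : 0 < p) : nz (X + C N) p = 1 := by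
  have h : nz ((X : ℤ[X]).comp (X + C N)) p = nz X p := nz_shift X N p hp
  rw [X_comp] at h
  rw [h]
  unfold nz
  rw [card_eq_one]
  refine ⟨0, ?_⟩
  ext x
  rw [mem_filter, mem_range, mem_singleton, eval_X]
  constructor
  · rintro ⟨h1, h2⟩
    have h3 : p ∣ x := by exact_mod_cast h2
    exact Nat.eq_zero_of_dvd_of_lt h3 h1
  · rintro rfl
    exact ⟨hp, by simp⟩

lemma re_le (e : ℤ) (p : ℕ) : re e p ≤ 2 := by
  unfold re
  rcases jacobiSym.trichotomy e p with h | h | h <;> rw [h] <;> norm_num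

lemma re_zero (p : ℕ) (hp : p.Prime) : re 0 p = 1 := by
  unfold re
  rw [jacobiSym.zero_left hp.one_lt]
  norm_num

/-! ### sizes -/

lemma size (P : ℤ[X]) (w : ℤ) : (P.eval w).natAbs ≤
    (∑ i ∈ range (P.natDegree + 1), (P.coeff i).natAbs) * (w.natAbs + 1) ^ P.natDegree := by
  rw [eval_eq_sum_range, sum_mul]
  refine (Int.natAbs_sum_le _ _).trans (sum_le_sum fun i hi => ?_)
  rw [Int.natAbs_mul, Int.natAbs_pow]
  refine Nat.mul_le_mul_left _ ?_
  have hi' : i ≤ P.natDegree := by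
    have := mem_range.1 hi
    omega
  calc w.natAbs ^ i ≤ (w.natAbs + 1) ^ i := Nat.pow_le_pow_left (by omega) i
    _ ≤ (w.natAbs + 1) ^ P.natDegree := Nat.pow_le_pow_right (by omega) hi'

lemma size_all (J : Type) [Fintype J] (P : J → ℤ[X]) : ∃ c d : ℕ, ∀ (j : J) (w : ℤ),
    ((P j).eval w).natAbs ≤ c * (w.natAbs + 1) ^ d := by
  refine ⟨∑ j, ∑ i ∈ range ((P j).natDegree + 1), ((P j).coeff i).natAbs, ∑ j, (P j).natDegree,
    fun j w => (size (P j) w).trans ?_⟩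
  refine Nat.mul_le_mul ?_ (Nat.pow_le_pow_right (by omega) ?_)
  · exact single_le_sum (f := fun j => ∑ i ∈ range ((P j).natDegree + 1), ((P j).coeff i).natAbs)
      (fun _ _ => Nat.zero_le _) (mem_univ j)
  · exact single_le_sum (f := fun j => (P j).natDegree) (fun _ _ => Nat.zero_le _) (mem_univ j)

/-! ### coprimality -/

lemma cop_X (P : ℤ[X]) (h : P.eval 0 ≠ 0) :
    IsCoprime (P.map (Int.castRingHom ℚ)) ((X : ℤ[X]).map (Int.castRingHom ℚ)) := by
  rw [Polynomial.map_X, isCoprime_comm, (irreducible_X).coprime_iff_not_dvd, X_dvd_iff,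
    coeff_map, coeff_zero_eq_eval_zero]
  intro h1
  apply h
  simpa using h1

/-- a common threshold -/
lemma thr {A : Type} [Fintype A] (Q : A → ℕ → Prop) (h : ∀ a, ∃ p0 : ℕ, ∀ p, p0 < p → Q a p) :
    ∃ p0 : ℕ, ∀ p, p0 < p → ∀ a, Q a p := by
  choose g hg using h
  refine ⟨∑ a, g a, fun p hp a => hg a p (lt_of_le_of_lt ?_ hp)⟩
  exact single_le_sum (f := g) (fun _ _ => Nat.zero_le _) (mem_univ a)

/-! ### tuples -/

lemma PP_ne (z y : ℕ) : PP z y ≠ 0 := by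
  unfold PP
  rw [prod_ne_zero_iff]
  intro p hp
  unfold PS at hp
  exact ((mem_filter.1 hp).2).ne_zero

lemma tup_prime {J : Type} [Fintype J] [DecidableEq J] {z y : ℕ} {s : J → ℕ}
    (hs : s ∈ Tup J z y) (j : J) : s j ≠ 0 ∧ ∀ p ∈ (s j).primeFactors, z < p := by
  unfold Tup at hs
  rw [mem_filter, Fintype.mem_piFinset] at hs
  have h1 := Nat.mem_divisors.1 (hs.1 j)
  refine ⟨fun h0 => h1.2 (Nat.eq_zero_of_zero_dvd (h0 ▸ h1.1)), fun p hp => ?_⟩
  have hpp := Nat.prime_of_mem_primeFactors hp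
  have h2 : p ∣ PP z y := (Nat.dvd_of_mem_primeFactors hp).trans h1.1
  unfold PP at h2
  obtain ⟨q, hq, hpq⟩ := (hpp.prime.dvd_finsetProd_iff _).1 h2
  unfold PS at hq
  rw [mem_filter, mem_Ioc] at hq
  have : p = q := (Nat.prime_dvd_prime_iff_eq hpp hq.2).1 hpq
  rw [this]
  exact hq.1.1

lemma gw_nonneg {c d z : ℕ} (hz : c ≤ z) (hd : ∀ p ∈ d.primeFactors, z < p) : 0 ≤ gw 1 c d := by
  unfold gw
  refine prod_nonneg fun p hp => ?_
  have h1 := hd p hp
  have h2 : (c : ℝ) < p := by exact_mod_cast lt_of_le_of_lt hz h1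
  exact div_nonneg zero_le_one (by linarith)

lemma gw_le {c n d z : ℕ} (hn : n ≤ c) (hz : 2 * c ≤ z) (hd : ∀ p ∈ d.primeFactors, z < p) :
    gw 1 c d ≤ 2 ^ d.primeFactors.card * gw 1 n d := by
  unfold gw
  rw [← prod_const, ← prod_mul_distrib]
  refine prod_le_prod (fun p hp => ?_) (fun p hp => ?_)
  · have h1 := hd p hp
    have h2 : (c : ℝ) < p := by
      have : c < p := by omega
      exact_mod_cast this
    exact div_nonneg zero_le_one (by linarith)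
  · have h1 := hd p hp
    have h2 : (2 * c : ℝ) < p := by
      have : 2 * c < p := by omega
      exact_mod_cast this
    have h3 : (n : ℝ) ≤ c := by exact_mod_cast hn
    have h0 : (0 : ℝ) ≤ n := Nat.cast_nonneg n
    rw [← mul_div_assoc, mul_one, div_le_div_iff₀ (by linarith) (by linarith)]
    linarith

lemma card_u {J : Type} [Fintype J] [DecidableEq J] {y Y k X : ℕ} {s v u : J → ℕ}
    (hs : ∀ j, s j ≠ 0) (hv : ∀ j, v j ≠ 0) (hu : u ∈ Tup J y Y) (hy : 1 ≤ y)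
    (h8 : (∏ j, s j * v j * u j) ^ 8 ≤ X) (hk : X < (y + 1) ^ k) :
    ∑ j, (u j).primeFactors.card ≤ k := by
  have h1 : ∀ j, (y + 1) ^ (u j).primeFactors.card ≤ s j * v j * u j := by
    intro j
    obtain ⟨h0, hp⟩ := tup_prime hu j
    have e1 : (y + 1) ^ (u j).primeFactors.card ≤ ∏ p ∈ (u j).primeFactors, p := by
      rw [← prod_const]
      exact prod_le_prod (fun _ _ => Nat.zero_le _) (fun p hp' => hp p hp')
    have e2 : ∏ p ∈ (u j).primeFactors, p ≤ u j :=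
      Nat.le_of_dvd (Nat.pos_of_ne_zero h0) (Nat.prod_primeFactors_dvd _)
    have e3 : u j ≤ s j * v j * u j :=
      Nat.le_mul_of_pos_left _ (Nat.mul_pos (Nat.pos_of_ne_zero (hs j)) (Nat.pos_of_ne_zero (hv j)))
    exact e1.trans (e2.trans e3)
  have h2 : (y + 1) ^ (∑ j, (u j).primeFactors.card) ≤ ∏ j, s j * v j * u j := by
    rw [← prod_pow_eq_pow_sum]
    exact prod_le_prod (fun _ _ => Nat.zero_le _) (fun j _ => h1 j)
  have h3 : (∏ j, s j * v j * u j) ≤ (∏ j, s j * v j * u j) ^ 8 := Nat.le_self_pow (by norm_num) _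
  have h4 : (y + 1) ^ (∑ j, (u j).primeFactors.card) < (y + 1) ^ k :=
    lt_of_le_of_lt (h2.trans (h3.trans h8)) hk
  exact ((Nat.pow_lt_pow_iff_right (by omega)).1 h4).le

lemma log_bd {X y k : ℕ} (hy : 2 ≤ y) (hX : 2 ≤ X) (hk : X < (y + 1) ^ k) :
    1 / Real.log y ≤ 2 * 2 ^ k / Real.log X := by
  have hy2 : (2 : ℝ) ≤ y := by exact_mod_cast hy
  have hX2 : (2 : ℝ) ≤ X := by exact_mod_cast hX
  have hly : 0 < Real.log y := Real.log_pos (by linarith)
  have hlX : 0 < Real.log X := Real.log_pos (by linarith)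
  rw [div_le_div_iff₀ hly hlX, one_mul]
  have h1 : (X : ℝ) ≤ ((y : ℝ) + 1) ^ k := by exact_mod_cast hk.le
  have h2 : Real.log X ≤ k * Real.log ((y : ℝ) + 1) := by
    rw [← Real.log_pow]
    exact Real.log_le_log (by linarith) h1
  have h3 : Real.log ((y : ℝ) + 1) ≤ 2 * Real.log y := by
    have : Real.log ((y : ℝ) ^ 2) = 2 * Real.log y := by
      rw [Real.log_pow]
      norm_num
    rw [← this]
    exact Real.log_le_log (by linarith) (by nlinarith)
  have h4 : (k : ℝ) ≤ 2 ^ k := by exact_mod_cast (Nat.lt_two_pow_self (n := k)).le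
  have h5 : (0 : ℝ) ≤ k := Nat.cast_nonneg k
  calc Real.log X ≤ k * Real.log ((y : ℝ) + 1) := h2
    _ ≤ k * (2 * Real.log y) := mul_le_mul_of_nonneg_left h3 h5
    _ ≤ 2 ^ k * (2 * Real.log y) := mul_le_mul_of_nonneg_right h4 (by linarith)
    _ = _ := by ring

lemma sqrt_bd {X : ℕ} (hX : 2 ≤ X) : ((Nat.sqrt X : ℕ) : ℝ) ≤ 2 * (X / Real.log X) := by
  have hX2 : (2 : ℝ) ≤ X := by exact_mod_cast hX
  have hlX : 0 < Real.log X := Real.log_pos (by linarith)
  have h1 : ((Nat.sqrt X : ℕ) : ℝ) ≤ √(X : ℝ) := Real.nat_sqrt_le_real_sqrt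
  have h0 : 0 < √(X : ℝ) := Real.sqrt_pos.2 (by linarith)
  have h2 : Real.log X ≤ 2 * √(X : ℝ) := by
    have h3 := Real.log_le_sub_one_of_pos h0
    have h4 : Real.log (√(X : ℝ)) = Real.log X / 2 := Real.log_sqrt (by linarith)
    linarith
  have h5 : √(X : ℝ) * √(X : ℝ) = X := Real.mul_self_sqrt (by linarith)
  refine h1.trans ?_
  rw [← mul_div_assoc, le_div_iff₀ hlX]
  nlinarith

lemma one_le_S {X : ℕ} (hX : 2 ≤ X) : 1 ≤ (X : ℝ) / Real.log X := by
  have hX2 : (2 : ℝ) ≤ X := by exact_mod_cast hX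
  have hlX : 0 < Real.log X := Real.log_pos (by linarith)
  rw [le_div_iff₀ hlX, one_mul]
  have := Real.log_le_sub_one_of_pos (show (0 : ℝ) < X by linarith)
  linarith

/-- the counting bound for the primes of `Icc 1 X` greater than the square root -/
lemma count (h2 : CNTE) (h3 : MERL) (h4 : COP) (J : Type) [Fintype J] [DecidableEq J]
    (P : J → ℤ[X]) (e : J → ℤ) (hD : DatA J P e) (hP0 : ∀ j, (P j).eval 0 ≠ 0) :
    ∃ z1 : ℕ, ∀ z, z1 ≤ z →
      (∀ p : ℕ, p.Prime → z < p → ∀ j l, j ≠ l → ∀ x : ℤ,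
        ¬ ((p : ℤ) ∣ (P j).eval x ∧ (p : ℤ) ∣ (P l).eval x)) ∧
      ∃ (C : ℝ) (K y0 : ℕ), 0 ≤ C ∧ 1 ≤ K ∧ ∀ (N : ℤ) (X y Y k : ℕ), 2 ≤ X → y0 ≤ y → z < y →
        y ^ K ≤ X → X < (y + 1) ^ k →
        ∀ s ∈ Tup J z y, ∀ v ∈ Tup J z y, ∀ u ∈ Tup J y Y, (∏ j, s j * v j * u j) ^ 8 ≤ X →
        ∀ (E : Finset ℕ) (T' : Finset ℕ), T' ⊆ Icc 1 X →
        (∀ t ∈ T', (N + (t : ℤ)).toNat.Prime ∧ X < (N + (t : ℤ)).toNat ^ 2) →
        (∀ t ∈ T', S1 z y (fun j => (P j).eval (N + (t : ℤ))) = s ∧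
          S2 z y (fun j => (P j).eval (N + (t : ℤ))) = v ∧
          (∀ j, (u j : ℤ) ∣ (P j).eval (N + (t : ℤ))) ∧
          ng (∏ j, s j) (∏ j, (P j).eval (N + (t : ℤ))) = E) →
        (T'.card : ℝ) ≤ (2 * C) * (2 * (2 * Fintype.card J + 1 : ℕ)) ^ k * (X / Real.log X) *
          (1 / 2) ^ (∏ j, s j).primeFactors.card *
          (∏ j, (gw 1 (2 * Fintype.card J + 1) (s j) * rr (re (e j)) (s j))) *
          (∏ j, (2 * (2 * Fintype.card J + 1 : ℕ) : ℝ) ^ (v j).primeFactors.card *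
            (gw 1 (Fintype.card J) (v j) / v j)) *
          (∏ j, 1 / (u j : ℝ)) / (Real.log y) ^ (Fintype.card J) := by
  obtain ⟨p1, hp1⟩ := hD.nz'
  obtain ⟨p2, hp2⟩ := thr (A := J × J) (fun a p => p.Prime → a.1 ≠ a.2 → ∀ x : ℤ,
      ¬ ((p : ℤ) ∣ (P a.1).eval x ∧ (p : ℤ) ∣ (P a.2).eval x)) (fun a => by
    by_cases hne : a.1 = a.2
    · exact ⟨0, fun p _ _ h => absurd hne h⟩
    · obtain ⟨p0, hp0⟩ := h4 _ _ (hD.cop a.1 a.2 hne)
      exact ⟨p0, fun p hp hpp _ x => hp0 p hpp hp x⟩)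
  obtain ⟨p3, hp3⟩ := thr (A := J) (fun j p => p.Prime → ∀ x : ℤ,
      ¬ ((p : ℤ) ∣ (P j).eval x ∧ (p : ℤ) ∣ (derivative (P j)).eval x)) (fun j => by
    obtain ⟨p0, hp0⟩ := h4 _ _ (hD.sep j)
    exact ⟨p0, fun p hp hpp x => hp0 p hpp hp x⟩)
  obtain ⟨p4, hp4⟩ := thr (A := J) (fun j p => p.Prime → ∀ x : ℤ,
      ¬ ((p : ℤ) ∣ (P j).eval x ∧ (p : ℤ) ∣ (X : ℤ[X]).eval x)) (fun j => by
    obtain ⟨p0, hp0⟩ := h4 _ _ (cop_X (P j) (hP0 j))
    exact ⟨p0, fun p hp hpp x => hp0 p hpp hp x⟩)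
  set n := Fintype.card J with hn
  set c : ℕ := 2 * n + 1 with hc
  refine ⟨p1 + p2 + p3 + p4 + (2 * c + 2), fun z hz => ⟨fun p hp hzp j l hjl x =>
    hp2 p (by omega) (j, l) hp hjl x, ?_⟩⟩
  -- the lower bound of the sum of the weights
  obtain ⟨C1, hC1⟩ := h3 (Option J) (fun o => o.elim 0 e) z (fun o => by
    cases o with
    | none => exact Or.inl rfl
    | some j => exact hD.sq j)
  have hw : ∀ y : ℕ, z < y → ((Fintype.card J + Fintype.card Unit : ℕ) : ℝ) *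
      Real.log (Real.log y) - C1 ≤
      ∑ p ∈ PS z y, ((∑ j, re (e j) p + ∑ _i : Unit, 1 : ℕ) : ℝ) / p := by
    intro y hy
    have h := hC1 y hy
    rw [Fintype.card_option] at h
    rw [Fintype.card_unit]
    refine h.trans (le_of_eq (sum_congr rfl fun p hp => ?_))
    have hpp : p.Prime := by
      unfold PS at hp
      exact (mem_filter.1 hp).2
    rw [Fintype.sum_option]
    simp only [Option.elim_none, Option.elim_some, re_zero p hpp, Finset.univ_unique,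
      Finset.sum_const, Finset.card_singleton, smul_eq_mul, mul_one]
    rw [add_comm 1]
  have hcc : ∀ p, ∑ j, re (e j) p + ∑ _i : Unit, 1 ≤ c := by
    intro p
    have h1 : ∑ j, re (e j) p ≤ ∑ _j : J, 2 := sum_le_sum fun j _ => re_le _ _
    rw [sum_const, card_univ, smul_eq_mul] at h1
    have h2 : ∑ _i : Unit, 1 = 1 := by simp
    rw [h2]
    omega
  obtain ⟨C0, K, y0, hC0, hK1, hcn⟩ := h2 J Unit (fun j p => re (e j) p) (fun _ _ => 1) c z C1 hcc
    (by omega) hw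
  refine ⟨C0, max K 2, max y0 2, hC0, le_trans hK1 (le_max_left _ _), ?_⟩
  intro N X y Y k hX2 hy0 hzy hyK hk s hs v hv u hu h8 E T' hT' hpr hval
  have hy2 : 2 ≤ y := le_trans (le_max_right _ _) hy0
  have hyK1 : y ^ K ≤ X := le_trans (Nat.pow_le_pow_right (by omega) (le_max_left _ _)) hyK
  have hy2X : y ^ 2 ≤ X := le_trans (Nat.pow_le_pow_right (by omega) (le_max_right _ _)) hyK
  have hcard := hcn (fun j => (P j).comp (Polynomial.X + Polynomial.C N))
    (fun _ => Polynomial.X + Polynomial.C N) 1 X y Y one_ne_zero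
    (le_trans (le_max_left _ _) hy0) hzy hyK1 (fun p hp hzp _ => by
      refine ⟨fun j => ?_, fun _ => nz_lin N p hp.pos, fun x => ⟨fun j l hjl => ?_,
        fun i l hil => absurd (Subsingleton.elim i l) hil, fun j _ => ?_, fun j => ?_⟩⟩
      · rw [nz_shift _ _ _ hp.pos]
        exact hp1 p hp (by omega) j
      · simp only [eval_comp, eval_add, eval_X, eval_C]
        exact hp2 p (by omega) (j, l) hp hjl _
      · simp only [eval_comp, eval_add, eval_X, eval_C]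
        have := hp4 p (by omega) j hp (x + N)
        rw [eval_X] at this
        exact this
      · have hd : derivative ((P j).comp (Polynomial.X + Polynomial.C N)) =
            (derivative (P j)).comp (Polynomial.X + Polynomial.C N) := by
          rw [derivative_comp]
          simp
        rw [hd]
        simp only [eval_comp, eval_add, eval_X, eval_C]
        exact hp3 p (by omega) j hp _) s hs v hv u hu h8 E
  have hev : ∀ (j : J) (t : ℤ), ((P j).comp (Polynomial.X + Polynomial.C N)).eval t =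
      (P j).eval (N + t) := by
    intro j t
    rw [eval_comp, eval_add, eval_X, eval_C, add_comm]
  simp only [hev, Nat.primeFactors_one, Finset.notMem_empty, false_imp_iff, implies_true,
    true_and, Finset.filter_empty, Finset.prod_empty, mul_one] at hcard
  have hsub : T' ⊆ (Icc 1 X).filter (fun t : ℕ =>
      S1 z y (fun j => (P j).eval (N + (t : ℤ))) = s ∧
      S2 z y (fun j => (P j).eval (N + (t : ℤ))) = v ∧
      (∀ j, (u j : ℤ) ∣ (P j).eval (N + (t : ℤ))) ∧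
      (∀ p ∈ PS z y, ¬ p ∣ 1 → ∀ _i : Unit, ¬ (p : ℤ) ∣
        (Polynomial.X + Polynomial.C N).eval (t : ℤ)) ∧
      ng (∏ j, s j) (∏ j, (P j).eval (N + (t : ℤ))) = E) := by
    intro t ht
    rw [mem_filter]
    obtain ⟨v1, v2, v3, v4⟩ := hval t ht
    refine ⟨hT' ht, v1, v2, v3, fun p hp _ _ hdv => ?_, v4⟩
    obtain ⟨hq, hlt⟩ := hpr t ht
    rw [eval_add, eval_X, eval_C, add_comm] at hdv
    unfold PS at hp
    rw [mem_filter, mem_Ioc] at hp
    have hnn : 0 ≤ N + (t : ℤ) := by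
      by_contra hneg
      push Not at hneg
      rw [Int.toNat_of_nonpos hneg.le] at hq
      exact Nat.not_prime_zero hq
    have h1 : (p : ℤ) ∣ ((N + (t : ℤ)).toNat : ℤ) := by
      rw [Int.toNat_of_nonneg hnn]
      exact hdv
    have h2 : p ∣ (N + (t : ℤ)).toNat := by exact_mod_cast h1
    have h3 : p = (N + (t : ℤ)).toNat := (Nat.prime_dvd_prime_iff_eq hp.2 hq).1 h2
    have h4 : (N + (t : ℤ)).toNat ≤ y := by
      rw [← h3]
      exact hp.1.2
    have h5 : (N + (t : ℤ)).toNat ^ 2 ≤ y ^ 2 := Nat.pow_le_pow_left h4 2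
    omega
  have hcard2 : (T'.card : ℝ) ≤ C0 * X * (1 / 2) ^ (∏ j, s j).primeFactors.card *
        (∏ j, (gw 1 c (s j) * rr (re (e j)) (s j))) *
        (∏ j, (c : ℝ) ^ (v j).primeFactors.card * (gw 1 c (v j) / v j)) *
        (∏ j, (c : ℝ) ^ (u j).primeFactors.card * (1 / (u j : ℝ))) /
        (Real.log y) ^ (Fintype.card J + Fintype.card Unit) := by
    refine le_trans ?_ hcard
    exact_mod_cast card_le_card hsub
  rw [Fintype.card_unit, ← hn] at hcard2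
  refine hcard2.trans ?_
  have hcz : c ≤ z := by omega
  have hc2z : 2 * c ≤ z := by omega
  have hc1 : (1 : ℝ) ≤ c := by
    have : 1 ≤ c := by omega
    exact_mod_cast this
  have hG1 : (0 : ℝ) ≤ (1 / 2) ^ (∏ j, s j).primeFactors.card := by positivity
  have hG2 : 0 ≤ ∏ j, (gw 1 c (s j) * rr (re (e j)) (s j)) :=
    prod_nonneg fun j _ => mul_nonneg (gw_nonneg hcz (tup_prime hs j).2)
      (prod_nonneg fun _ _ => Nat.cast_nonneg _)
  have hV0 : 0 ≤ ∏ j, (c : ℝ) ^ (v j).primeFactors.card * (gw 1 c (v j) / v j) :=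
    prod_nonneg fun j _ => mul_nonneg (by positivity)
      (div_nonneg (gw_nonneg hcz (tup_prime hv j).2) (Nat.cast_nonneg _))
  have hV : ∏ j, (c : ℝ) ^ (v j).primeFactors.card * (gw 1 c (v j) / v j) ≤
      ∏ j, (2 * (c : ℝ)) ^ (v j).primeFactors.card * (gw 1 n (v j) / v j) := by
    refine prod_le_prod (fun j _ => mul_nonneg (by positivity)
      (div_nonneg (gw_nonneg hcz (tup_prime hv j).2) (Nat.cast_nonneg _))) (fun j _ => ?_)
    have h1 := gw_le (n := n) (by omega : n ≤ c) hc2z (tup_prime hv j).2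
    have h2 : (0 : ℝ) ≤ v j := Nat.cast_nonneg _
    have h3 : gw 1 c (v j) / v j ≤ (2 ^ (v j).primeFactors.card * gw 1 n (v j)) / v j :=
      div_le_div_of_nonneg_right h1 h2
    calc (c : ℝ) ^ (v j).primeFactors.card * (gw 1 c (v j) / v j)
        ≤ (c : ℝ) ^ (v j).primeFactors.card *
          ((2 ^ (v j).primeFactors.card * gw 1 n (v j)) / v j) :=
          mul_le_mul_of_nonneg_left h3 (by positivity)
      _ = _ := by
          rw [mul_pow]
          ring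
  have hU0 : 0 ≤ ∏ j, (1 / (u j : ℝ)) := prod_nonneg fun j _ => by positivity
  have hU : ∏ j, (c : ℝ) ^ (u j).primeFactors.card * (1 / (u j : ℝ)) ≤
      (c : ℝ) ^ k * ∏ j, (1 / (u j : ℝ)) := by
    rw [prod_mul_distrib, prod_pow_eq_pow_sum]
    refine mul_le_mul_of_nonneg_right ?_ hU0
    exact pow_le_pow_right₀ hc1 (card_u (fun j => (tup_prime hs j).1)
      (fun j => (tup_prime hv j).1) hu (by omega) h8 hk)
  have hly : 0 < Real.log y := Real.log_pos (by exact_mod_cast (by omega : 1 < y))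
  have hlX : 0 < Real.log X := Real.log_pos (by exact_mod_cast (by omega : 1 < X))
  have hlog := log_bd hy2 hX2 hk
  set G1 : ℝ := (1 / 2) ^ (∏ j, s j).primeFactors.card with hG1d
  set G2 : ℝ := ∏ j, (gw 1 c (s j) * rr (re (e j)) (s j)) with hG2d
  set V : ℝ := ∏ j, (c : ℝ) ^ (v j).primeFactors.card * (gw 1 c (v j) / v j) with hVd
  set V' : ℝ := ∏ j, (2 * (c : ℝ)) ^ (v j).primeFactors.card * (gw 1 n (v j) / v j) with hV'd
  set U : ℝ := ∏ j, (c : ℝ) ^ (u j).primeFactors.card * (1 / (u j : ℝ)) with hUd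
  set U' : ℝ := ∏ j, (1 / (u j : ℝ)) with hU'd
  have hX0 : (0 : ℝ) ≤ X := Nat.cast_nonneg _
  have hcast : ((c : ℕ) : ℝ) = c := rfl
  have hU0' : 0 ≤ U := prod_nonneg fun j _ => by positivity
  calc C0 * X * G1 * G2 * V * U / (Real.log y) ^ (n + 1)
      = (C0 * X * G1 * G2) * (V * U) * (1 / Real.log y) / (Real.log y) ^ n := by
        rw [pow_succ]
        field_simp
    _ ≤ (C0 * X * G1 * G2) * (V' * ((c : ℝ) ^ k * U')) * (2 * 2 ^ k / Real.log X) /
          (Real.log y) ^ n := by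
        refine div_le_div_of_nonneg_right ?_ (by positivity)
        refine mul_le_mul ?_ hlog (by positivity) ?_
        · refine mul_le_mul_of_nonneg_left ?_ (by positivity)
          exact mul_le_mul hV hU hU0' (hV0.trans hV)
        · exact mul_nonneg (by positivity) (mul_nonneg (hV0.trans hV) (by positivity))
    _ = _ := by
        rw [mul_pow]
        ring

theorem avb_of (h1 : AVGA) (h2 : CNTE) (h3 : MERL) (h4 : COP) (h5 : AVA) : AVB := by
  intro J _ _ P e a k0 B hD hP0 ha ha2 hk0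
  obtain ⟨z1, hz1⟩ := count h2 h3 h4 J P e hD hP0
  obtain ⟨c0, d0, hsz⟩ := size_all J P
  obtain ⟨CA, hCA⟩ := h5 J P e a k0 B hD ha ha2 hk0
  set n := Fintype.card J with hn
  -- the summand
  let r : ℤ → ℝ := fun w => ((2 : ℝ) ^ Module.finrank ℤ (EAB (a 0 * ∏ j, (P j).eval w)
        (a 1 * ∏ j, (P j).eval w)).toAffine.Point) ^ k0
  have hr0 : ∀ w, 0 ≤ r w := fun w => by positivity
  have hlog : ∀ X : ℕ, 2 ≤ X → 0 < Real.log (X : ℝ) := fun X hX =>
    Real.log_pos (by exact_mod_cast (by omega : 1 < X))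
  obtain ⟨C2, hC2⟩ : ∃ C2 : ℝ, ∀ θ : {θ : ℤ × ℕ // 2 ≤ θ.2 ∧ θ.1.natAbs ≤ θ.2 ^ B},
      ∑ t ∈ (Icc 1 θ.1.2).filter (fun t : ℕ => ((θ.1.1 + (t : ℤ)).toNat.Prime ∧
        θ.1.2 < (θ.1.1 + (t : ℤ)).toNat ^ 2) ∧ ∀ j, (P j).eval (θ.1.1 + (t : ℤ)) ≠ 0),
        r (θ.1.1 + (t : ℤ)) ≤ C2 * ((θ.1.2 : ℝ) / Real.log (θ.1.2 : ℝ)) := by
    refine h1 J ℕ {θ : ℤ × ℕ // 2 ≤ θ.2 ∧ θ.1.natAbs ≤ θ.2 ^ B}
      (fun θ => (Icc 1 θ.1.2).filter (fun t : ℕ => ((θ.1.1 + (t : ℤ)).toNat.Prime ∧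
        θ.1.2 < (θ.1.1 + (t : ℤ)).toNat ^ 2) ∧ ∀ j, (P j).eval (θ.1.1 + (t : ℤ)) ≠ 0))
      (fun θ => θ.1.2) (fun θ t j => (P j).eval (θ.1.1 + (t : ℤ)))
      (fun θ => (θ.1.2 : ℝ) / Real.log (θ.1.2 : ℝ)) a e (2 * n + 1) ((B + 3) * d0 + 1) k0 ha ha2
      hD.sq hk0 (by omega) (fun θ => le_trans (by norm_num) θ.2.1)
      (fun θ => div_nonneg (Nat.cast_nonneg _) (hlog _ θ.2.1).le) (fun X0 => ?_) ⟨c0, ?_⟩
      ⟨z1, fun z hz => ?_⟩
    · -- small scales
      refine ⟨∑ N ∈ Icc (-((X0 : ℤ) ^ B)) ((X0 : ℤ) ^ B), ∑ t ∈ Icc 1 X0, r (N + (t : ℤ)), ?_⟩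
      rintro ⟨⟨N, X⟩, hX, hN⟩ hle
      simp only at hX hN hle ⊢
      have hX0 : X ^ B ≤ X0 ^ B := Nat.pow_le_pow_left hle B
      have hmem : N ∈ Icc (-((X0 : ℤ) ^ B)) ((X0 : ℤ) ^ B) := by
        rw [mem_Icc]
        have h1 : (N.natAbs : ℤ) ≤ (X0 : ℤ) ^ B := by exact_mod_cast hN.trans hX0
        omega
      have h1 : ∑ t ∈ (Icc 1 X).filter (fun t : ℕ => ((N + (t : ℤ)).toNat.Prime ∧
          X < (N + (t : ℤ)).toNat ^ 2) ∧ ∀ j, (P j).eval (N + (t : ℤ)) ≠ 0),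
          r (N + (t : ℤ)) ≤ ∑ t ∈ Icc 1 X0, r (N + (t : ℤ)) := by
        refine sum_le_sum_of_subset_of_nonneg ?_ fun t _ _ => hr0 _
        exact (filter_subset _ _).trans (Icc_subset_Icc_right hle)
      have h2 : ∑ t ∈ Icc 1 X0, r (N + (t : ℤ)) ≤
          ∑ N ∈ Icc (-((X0 : ℤ) ^ B)) ((X0 : ℤ) ^ B), ∑ t ∈ Icc 1 X0, r (N + (t : ℤ)) :=
        single_le_sum (f := fun N : ℤ => ∑ t ∈ Icc 1 X0, r (N + (t : ℤ)))
          (fun _ _ => sum_nonneg fun _ _ => hr0 _) hmem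
      have h3 : 0 ≤ ∑ N ∈ Icc (-((X0 : ℤ) ^ B)) ((X0 : ℤ) ^ B),
          ∑ t ∈ Icc 1 X0, r (N + (t : ℤ)) := sum_nonneg fun _ _ => sum_nonneg fun _ _ => hr0 _
      exact (h1.trans h2).trans (le_mul_of_one_le_right h3 (one_le_S hX))
    · -- sizes
      rintro ⟨⟨N, X⟩, hX, hN⟩ hle t ht j
      simp only at hX hN hle ht ⊢
      have ht1 := (mem_Icc.1 (mem_filter.1 ht).1).2
      have e1 : (N + (t : ℤ)).natAbs + 1 ≤ X ^ (B + 3) := by
        have a1 : (N + (t : ℤ)).natAbs ≤ N.natAbs + t := by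
          refine (Int.natAbs_add_le _ _).trans ?_
          rw [Int.natAbs_natCast]
        have a2 : X ^ B ≤ X ^ (B + 1) := Nat.pow_le_pow_right (by omega) (by omega)
        have a3 : X ≤ X ^ (B + 1) := Nat.le_self_pow (by omega) X
        have a4 : 1 ≤ X ^ (B + 1) := Nat.one_le_pow _ _ (by omega)
        have a5 : 3 * X ^ (B + 1) ≤ X ^ (B + 3) := by
          have : X ^ (B + 3) = X ^ 2 * X ^ (B + 1) := by ring
          rw [this]
          exact Nat.mul_le_mul_right _ (by nlinarith)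
        omega
      calc ((P j).eval (N + (t : ℤ))).natAbs ≤ c0 * ((N + (t : ℤ)).natAbs + 1) ^ d0 := hsz j _
        _ ≤ X * (X ^ (B + 3)) ^ d0 := Nat.mul_le_mul hle (Nat.pow_le_pow_left e1 d0)
        _ = X ^ ((B + 3) * d0 + 1) := by rw [← pow_mul, pow_succ, mul_comm]
    · -- the main counting bound
      obtain ⟨hco, C0, K, y0, hC0, hK1, hcnt⟩ := hz1 z hz
      refine ⟨fun θ t ht => ⟨(mem_filter.1 ht).2.2, fun p hp hzp j l hjl =>
        hco p hp hzp j l hjl _⟩, 2 * C0, 2 * (2 * n + 1 : ℕ), 2 * (2 * n + 1 : ℕ), K, y0,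
        by positivity, ?_, ?_, hK1, ?_⟩
      · have : (0 : ℝ) ≤ (n : ℝ) := Nat.cast_nonneg _
        push_cast
        linarith
      · have : (0 : ℝ) ≤ (n : ℝ) := Nat.cast_nonneg _
        push_cast
        linarith
      rintro ⟨⟨N, X⟩, hX, hN⟩ y Y k hy0 hzy hyK hk s hs v hv u hu h8 E T' hT' hval
      simp only at hX hN hyK hk h8 hT' hval ⊢
      exact hcnt N X y Y k hX hy0 hzy hyK hk s hs v hv u hu h8 E T'
        (fun t ht => (mem_filter.1 (hT' ht)).1) (fun t ht => (mem_filter.1 (hT' ht)).2.1) hval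
  refine ⟨C2 + 2 * |CA|, fun N X hX hN => ?_⟩
  change ∑ t ∈ (Icc 1 X).filter (fun t : ℕ => (N + (t : ℤ)).toNat.Prime ∧
      ∀ j, (P j).eval (N + (t : ℤ)) ≠ 0), r (N + (t : ℤ)) ≤ _
  have hm := hC2 ⟨(N, X), hX, hN⟩
  simp only at hm
  -- the small primes
  set A := (Icc 1 X).filter (fun t : ℕ => ((N + (t : ℤ)).toNat.Prime ∧
      ∀ j, (P j).eval (N + (t : ℤ)) ≠ 0) ∧ ¬ X < (N + (t : ℤ)).toNat ^ 2) with hA
  have hsplit : ∑ t ∈ (Icc 1 X).filter (fun t : ℕ => (N + (t : ℤ)).toNat.Prime ∧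
      ∀ j, (P j).eval (N + (t : ℤ)) ≠ 0), r (N + (t : ℤ)) =
      ∑ t ∈ (Icc 1 X).filter (fun t : ℕ => ((N + (t : ℤ)).toNat.Prime ∧
        X < (N + (t : ℤ)).toNat ^ 2) ∧ ∀ j, (P j).eval (N + (t : ℤ)) ≠ 0), r (N + (t : ℤ)) +
      ∑ t ∈ A, r (N + (t : ℤ)) := by
    rw [← sum_filter_add_sum_filter_not ((Icc 1 X).filter (fun t : ℕ =>
      (N + (t : ℤ)).toNat.Prime ∧ ∀ j, (P j).eval (N + (t : ℤ)) ≠ 0))
      (fun t : ℕ => X < (N + (t : ℤ)).toNat ^ 2), filter_filter, filter_filter]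
    congr 1
    refine sum_congr (filter_congr fun t _ => ?_) fun _ _ => rfl
    tauto
  have hnn : ∀ t ∈ A, 0 ≤ N + (t : ℤ) := by
    intro t ht
    rw [hA, mem_filter] at ht
    by_contra hneg
    push Not at hneg
    have hq := ht.2.1.1
    rw [Int.toNat_of_nonpos hneg.le] at hq
    exact Nat.not_prime_zero hq
  have hsmall : ∑ t ∈ A, r (N + (t : ℤ)) ≤ |CA| * (Nat.sqrt X : ℕ) := by
    have hs1 : 1 ≤ Nat.sqrt X := by
      rw [Nat.le_sqrt]
      omega
    have hb := hCA 0 (Nat.sqrt X) hs1 (by simp)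
    have hinj : Set.InjOn (fun t : ℕ => (N + (t : ℤ)).toNat) A := by
      intro t ht t' ht' h
      have h1 := hnn t ht
      have h2 := hnn t' ht'
      simp only at h
      omega
    have e1 : ∑ t ∈ A, r (N + (t : ℤ)) =
        ∑ w ∈ A.image (fun t : ℕ => (N + (t : ℤ)).toNat), r ((0 : ℤ) + (w : ℤ)) := by
      rw [sum_image hinj]
      refine sum_congr rfl fun t ht => ?_
      rw [Int.toNat_of_nonneg (hnn t ht), zero_add]
    have e2 : ∑ w ∈ A.image (fun t : ℕ => (N + (t : ℤ)).toNat), r ((0 : ℤ) + (w : ℤ)) ≤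
        ∑ w ∈ (Icc 1 (Nat.sqrt X)).filter (fun t : ℕ => ∀ j, (P j).eval ((0 : ℤ) + (t : ℤ)) ≠ 0),
          r ((0 : ℤ) + (w : ℤ)) := by
      refine sum_le_sum_of_subset_of_nonneg ?_ fun t _ _ => hr0 _
      intro w hw
      rw [mem_image] at hw
      obtain ⟨t, ht, rfl⟩ := hw
      have h0 := hnn t ht
      rw [hA, mem_filter] at ht
      rw [mem_filter, mem_Icc]
      refine ⟨⟨ht.2.1.1.pos, ?_⟩, fun j => ?_⟩
      · rw [Nat.le_sqrt, ← sq]
        have := ht.2.2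
        omega
      · rw [Int.toNat_of_nonneg h0, zero_add]
        exact ht.2.1.2 j
    rw [e1]
    refine e2.trans (le_trans hb ?_)
    exact mul_le_mul_of_nonneg_right (le_abs_self CA) (Nat.cast_nonneg _)
  rw [hsplit]
  have hsq := sqrt_bd hX
  calc _ ≤ C2 * ((X : ℝ) / Real.log X) + |CA| * (Nat.sqrt X : ℕ) := add_le_add hm hsmall
    _ ≤ C2 * ((X : ℝ) / Real.log X) + |CA| * (2 * (X / Real.log X)) := by
        gcongr
    _ = _ := by ring

end Pool.Agent.W856.QF
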